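import Pool.Agent.PLX.StmtsA

/-!
# Squad PLX, row LMS (helper74): the eigenvalue
-/

set_option autoImplicit false

namespace Pool.Agent.PLX.H74

open Module Pool.Agent.PLX

theorem lms : LmsStmt := by
  intro A _ _ Φ N W t₁ t₂ k l S hSlo ht₁ ht₂ hk hl hk1 hk2 hl1 hl2 hS y
  obtain ⟨z, hz, hyz, hSz⟩ := hS y
  have h1 : (Φ (y : A)).im = t₁ * (Φ (y : A)).re := hSlo t₁ ht₁ _ y.2
  have h2 : (Φ z).im = t₂ * (Φ z).re := hSlo t₂ ht₂ _ hz
  have h3 : (Φ (S y : A)).im = t₁ * (Φ (S y : A)).re := hSlo t₁ ht₁ _ (S y).2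
  have h4 := hSlo k hk _ hyz
  have h5 := hSlo l hl _ hSz
  rw [map_sub, Complex.sub_im, Complex.sub_re, h1, h2] at h4
  rw [map_sub, Complex.sub_im, Complex.sub_re, h3, h2] at h5
  have hk1' : k - t₁ ≠ 0 := sub_ne_zero.2 hk1
  have hk2' : k - t₂ ≠ 0 := sub_ne_zero.2 hk2
  have hl1' : l - t₁ ≠ 0 := sub_ne_zero.2 hl1
  have hl2' : l - t₂ ≠ 0 := sub_ne_zero.2 hl2
  have h6 : (Φ z).re = (Φ (y : A)).re * ((k - t₁) / (k - t₂)) := by
    rw [mul_div_assoc', eq_div_iff hk2']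
    linarith
  have h7 : (Φ (S y : A)).re * ((l - t₁) / (l - t₂)) = (Φ z).re := by
    rw [mul_div_assoc', div_eq_iff hl2']
    linarith
  have h8 : (l - t₁) / (l - t₂) ≠ 0 := div_ne_zero hl1' hl2'
  have h9 : (Φ (S y : A)).re = lam t₁ t₂ k l * (Φ (y : A)).re := by
    have h10 : (Φ (S y : A)).re = (Φ z).re / ((l - t₁) / (l - t₂)) := by
      rw [eq_div_iff h8]
      exact h7
    rw [h10, h6, lam]
    ring
  refine eq_of_re h3 ?_ ?_
  · rw [Complex.re_ofReal_mul, Complex.im_ofReal_mul, h1]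
    ring
  · rw [Complex.re_ofReal_mul]
    exact h9

end Pool.Agent.PLX.H74
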